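import Pool.Agent.Lib.MP_ab8df0_nt.B.Auto2
import Pool.Agent.Lib.MP_ab8df0_nt.P.N2D

/-! Constants, proof tree and the result of the computation. -/

set_option maxRecDepth 100000

namespace Pool.Agent.Lib.MP_ab8df0_nt.T.B62

open Pool.Agent.Lib.MP_ab8df0_nt.B Pool.Agent.Lib.MP_ab8df0_nt.P

def vs : Cs := [([0, 1], 1), ([], 1), ([], 1), ([], 1), 
  ([2, 0, 0, 0, 0, -5, 0, 0, 0, 0, 1], 1),
  ([0, 1], 1),
  ([-1, 1], 1),
  ([1, 0, 0, 1], 1),
  ([0, 2], 1),
  ([0, -2, 0, 0, 0, 0, 2, 0, 2], 1),
  ([0, 2, 0, -2, 0, 2, -2, -2, 2], 1),
  ([0, -2, 0, 0, 0, 0, 2, 2, 0, 2], 1),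
  ([0, 8, 4, 2, 0, 0, -12, -10, -10, 0, 0, 2, 2, 2], 1),
  ([-1, 0, 1], 1),
  ([0, -2, 0, 2, 0, 0, -2, 0, 2], 1),
  ([0, 6, 0, 0, 0, 0, 6], 1),
  ([-12, 4, 1, -2, 3, 34, -11, -4, 6, -8, -30, 10, 4, -6, 7], 1),
  ([0, 0, 0, 0, 12, 0, 0, 0, 0, -17, 0, 0, 0, 0, 3], 2)]

def M (t0 : ℤ) (k0 : ℕ) : List Hyp := [
  .disc 1 t0 k0,
  .eq 2 (.add (.mul (.num 2) (.inv (.add (.num 1) (.mul (.var 1) (.var 4))))) (.neg (.num 1))),
  .pw 3 2 (.add (.num 1) (.mul (.num 3) (.sq (.var 2)))),
  .cls (.add (.var 3) (.neg (.num 1))) [5, 6, 7, 8, 9, 10, 11, 12, 13, 14, 15, 16]]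

def k0 : Cut := ⟨[0], [], [[true, false, false, false, false, false, false, false, false, false, false, false, false]], [[false, true, false, false, false, false, false, false, false, false, false, false, false], [false, false, false, true, false, false, false, false, false, false, false, false, false], [false, false, false, false, false, true, false, false, false, false, false, false, false], [false, true, true, false, false, false, false, false, false, false, false, false, false], [false, false, true, false, false, false, false, false, false, false, false, true, false], [false, true, true, true, false, true, false, false, true, false, false, false, false], [false, true, true, false, false, true, false, false, false, false, true, false, false], [false, true, true, false, false, false, false, false, false, false, false, false, true], [false, false, false, true, true, false, false, false, false, false, false, false, false], [false, true, true, true, true, false, true, false, false, false, false, false, false], [false, false, true, false, false, false, true,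 true, false, false, false, false, false], [true, true, false, true, true, false, false, false, false, true, true, true, false]], [[true, false, false, false, false, false, false, false, false, false, false, false, false], [false, true, false, false, false, false, false, false, false, false, false, false, false], [false, true, false, false, true, false, false, false, false, false, false, false, false], [false, false, true, false, false, false, false, false, false, false, false, false, false], [false, false, true, false, false, false, false, false, false, true, false, false, false], [false, false, false, true, false, false, false, false, false, false, false, false, false], [false, false, false, false, true, false, false, false, false, true, true, false, false], [false, true, false, false, false, false, false, false, false, true, true, true, false], [false, false, true, true, true, false, true, false, false, false, false, false, false], [true, false, false, true, false, true, false, true, false, true, false, false, true], [false, false, false, true, true, false,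 false, true, false, false, false, false, false], [false, true, false, false, true, true, false, false, false, false, false, false, false], [false, false, false, false, true, false, false, false, true, false, false, false, false]]⟩

def A : List AH := [
  ]

theorem auto : (baseOk 3 vs && A.all (AH.ok FDN2 3 vs)) = true := by decide +kernel

def r0_0 : Tree := .set 4 [[]] (.set 5 [[]] (.set 6 [[]] (.set 7 [[]] (.set 8 [[]] (.set 9 [[]] (.set 10 [[]] (.set 11 [[]] (.set 12 [[]] (.set 13 [[]] (.set 14 [[]] (.set 15 [[]] (.set 16 [[]] (.piv [5, 6, 7, 8, 9, 10, 11, 12, 13, 14, 15, 16] [[ce 0 136 1 0 0x0], [ce 0 136 1 1 0x1], [ce 0 136 1 1 0x1], [ce (-1) 136 1 8 0x80], [ce (-1) 136 1 8 0x80], [ce (-1) 136 5 15 0x71153f0054c80ec414e], [ce (-1) 136 5 15 0x6f76f9ecadb388719de], [ce (-1) 136 5 15 0x5ba5bf197077148481c], [ce 0 136 5 15 0x3e2f8bee9ba6e3e8fa3], [ce (-1) 136 5 15 0x5e2d9e7ed8a11883380], [ce (-1) 136 1 8 0x80], [ce (-1) 136 5 15 0x5c9e03a9e76a1a94986]] (.disc 18 (.split 18 (.set 19 [[ce 0 136 1 1 0x1]] (.oroot 20 [[]] [(ce 0 136 4 12 0xc0000b000020, ce (-2)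 136 4 11 0x80000000001)] (.dead 21 22 [[]] [false, false, false, false, false, false, false, false, true, true, false, false] [ce (-1) 136 4 15 0xbafdd1efaaa826e]))) (.set 19 [[ce 0 136 4 11 0xa0000900009]] (.oroot 20 [[]] [(ce 0 136 4 12 0xf0000f0000c0, ce (-2) 136 4 11 0x8000010000f)] (.dead 21 22 [[]] [false, false, false, false, false, false, true, true, true, true, false, false] [ce (-2) 136 4 15 0x889ce7668b484a2]))))))))))))))))))

theorem r0 : run FDN2.ds FDN2.es [[]] vs.length (fullH 3 vs (M 0 0) A) r0_0 = true := by
  decide +kernel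

theorem relth {K : Type} [Field K] [NumberField K] {a : K} {pl : List (Place K)} {ph : List (K →+* ℝ)}
    {w : List (IsDedekindDomain.HeightOneSpectrum (NumberField.RingOfIntegers K))}
    (hP : Pack K FDN2 a pl ph w) : (cval a vs 4 * ((cval a vs 4) ^ 2)) = 2 := by
  have h : ((cval a vs 4 * ((cval a vs 4) ^ 2)) + (-(((2 : ℤ) : K)))) = 0 :=
    hP.rel vs (.add (.mul (.var 4) (.sq (.var 4))) (.neg (.num 2))) (by decide +kernel)
  have h0 : cval a vs 0 = a := by simp [cval, vs, ev]
  try rw [h0] at h
  try push_cast at h
  linear_combination h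

theorem relbe {K : Type} [Field K] [NumberField K] {a : K} {pl : List (Place K)} {ph : List (K →+* ℝ)}
    {w : List (IsDedekindDomain.HeightOneSpectrum (NumberField.RingOfIntegers K))}
    (hP : Pack K FDN2 a pl ph w) : (4 * (cval a vs 17 * ((((cval a vs 17) ^ 2)) ^ 2))) = (((cval a vs 4 - 1) * (((cval a vs 4 - 1)) ^ 2)) * ((cval a vs 4 - 1) * (((cval a vs 4 - 1)) ^ 2))) := by
  have h : ((((4 : ℤ) : K) * (cval a vs 17 * ((((cval a vs 17) ^ 2)) ^ 2))) + (-((((cval a vs 4 + (-(((1 : ℤ) : K)))) * (((cval a vs 4 + (-(((1 : ℤ) : K))))) ^ 2)) * ((cval a vs 4 + (-(((1 : ℤ) : K)))) * (((cval a vs 4 + (-(((1 : ℤ) : K))))) ^ 2)))))) = 0 :=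
    hP.rel vs (.add (.mul (.num 4) (.mul (.var 17) (.sq (.sq (.var 17))))) (.neg (.mul (.mul (.add (.var 4) (.neg (.num 1))) (.sq (.add (.var 4) (.neg (.num 1))))) (.mul (.add (.var 4) (.neg (.num 1))) (.sq (.add (.var 4) (.neg (.num 1)))))))) (by decide +kernel)
  have h0 : cval a vs 0 = a := by simp [cval, vs, ev]
  try rw [h0] at h
  try push_cast at h
  linear_combination h

theorem core {K : Type} [Field K] [NumberField K] {a : K} {pl : List (Place K)} {ph : List (K →+* ℝ)}
    {w : List (IsDedekindDomain.HeightOneSpectrum (NumberField.RingOfIntegers K))}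
    (hP : Pack K FDN2 a pl ph w) {G : Prop} (t g X : K)
    (hdisc : Q2 0 (t - ((0 : ℤ) : K)))
    (hG : g = ((2 * ((1 + (t * cval a vs 4)))⁻¹) - 1))
    (hX : X ^ 5 = (1 + (3 * ((g) ^ 2))))
    (hcls : ∀ v : IsDedekindDomain.HeightOneSpectrum (NumberField.RingOfIntegers K), ((30 : ℕ) : NumberField.RingOfIntegers K) ∉ v.asIdeal →
      ∃ k : ℤ, v.valuation K (X - 1) = WithZero.exp (2 * k))
    (hclsre : ∀ i ∈ [0], ∀ φ, ph[i]? = some φ → 0 < φ (X - 1)) :
    G := by
  refine hP.cover (fr := [t, g, X]) (M := M) (cs := [[]]) rfl auto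
    (l := [(0, 0)]) (by decide) ?_ hdisc fun tt kk hq => ?_
  · exact List.forall_mem_cons.2 ⟨⟨_, r0⟩, fun _ h => absurd h List.not_mem_nil⟩
  · refine List.forall_mem_cons.2 ⟨?_, List.forall_mem_cons.2 ⟨?_, List.forall_mem_cons.2 ⟨?_, List.forall_mem_cons.2 ⟨?_, fun _ h => absurd h List.not_mem_nil⟩⟩⟩⟩
    · exact hq
    · show g = ((((2 : ℤ) : K) * ((((1 : ℤ) : K) + (t * cval a vs 4)))⁻¹) + (-(((1 : ℤ) : K))))
      try push_cast
      linear_combination hG
    · show X ^ 5 = (((1 : ℤ) : K) + (((3 : ℤ) : K) * ((g) ^ 2)))
      try push_cast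
      linear_combination hX
    · exact fun h0 => hP.span_cut (nf := 3) (vs := vs) (x := (X + (-(((1 : ℤ) : K))))) (fr := [t, g, X]) rfl k0 (by decide +kernel) h0 ((by push_cast; ring : (X + (-(((1 : ℤ) : K)))) = (X - 1)) ▸ hcls) ((by push_cast; ring : (X + (-(((1 : ℤ) : K)))) = (X - 1)) ▸ hclsre) (fun _ h => absurd h List.not_mem_nil)

end Pool.Agent.Lib.MP_ab8df0_nt.T.B62
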