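import Pool.Agent.Lib.MP_ab8df0_nt.T.N15
import Pool.Agent.Lib.MP_ab8df0_nt.T.B62.Core
import Pool.Agent.Lib.MP_ab8df0_nt.P.N2

/-! This class contains no solution. -/

namespace Pool.Agent.Lib.MP_ab8df0_nt.T.B62

open Pool.Agent.Lib.MP_ab8df0_nt.B Pool.Agent.Lib.MP_ab8df0_nt.C Pool.Agent.Lib.MP_ab8df0_nt.P

theorem bb0 {K : Type} [Field K] [NumberField K] {a : K} {pl : List (Place K)}
    {ph : List (K →+* ℝ)}
    {w : List (IsDedekindDomain.HeightOneSpectrum (NumberField.RingOfIntegers K))}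
    (hP : Pack K FDN2 a pl ph w) : BB62 := by
  intro x y z hz h hf
  have ht := relth hP
  have ht' : cval a vs 4 ^ 3 = ((2 : ℤ) : K) := by push_cast; linear_combination ht
  have e0 : e3 (cval a vs 4) eps2 = cval a vs 4 - 1 := by simp [e3, eps2]; ring
  have e1 := R13.e3_m3 (d := 2) ht' eps2 eps2
  rw [e0, Int.cast_ofNat] at e1
  obtain ⟨t, g, X, -, -, hg, hq, hG, hX⟩ := N15.lev1 (be := cval a vs 17) ht
    (by rw [e1]; linear_combination relbe hP) hz h hf
  exact core hP t g X hq hG hX (delta_even hg hX) fun _ _ φ _ => delta_pos hg hX φ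

theorem bb : BB62 := by
  obtain ⟨pl, ph, w, hP⟩ := P.N2.pack
  exact bb0 hP

end Pool.Agent.Lib.MP_ab8df0_nt.T.B62
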